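import Pool.Agent.H23.LC.Targets
import Pool.Agent.H19.RC.TH

/-!
# TK: the functional equation of the theta series with harmonic polynomials (MP_52e316_nt)
-/

set_option autoImplicit false

open NumberField NumberField.InfinitePlace NumberField.Units
  NumberField.Units.dirichletUnitTheorem MeasureTheory Set Filter Complex
open scoped nonZeroDivisors ENNReal

namespace Pool.Agent.H81.GLB

open Pool.Agent.H25.HK Pool.Agent.H23.LB Pool.Agent.H23.LC
open Pool.Agent.H28.RC (Rep ft idl RP re abs_re co T_GMc T_LBc)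
open Pool.Agent.H19.RC (fM_le repEquiv repEquiv_apply co_sum)

section

variable {K : Type} [Field K] [NumberField K]

/-- the term of the theta series -/
noncomputable def GW (k : InfinitePlace K → ℤ) (y : InfinitePlace K → ℝ) (x : K) : ℂ :=
  wk K k y x * ((Real.exp (-Real.pi * qK K y x) : ℝ) : ℂ)

open scoped Classical in
/-- the constant `√2 ^ (∑ |k_v|)`, complex places -/
noncomputable def cc (k : InfinitePlace K → ℤ) : ℂ :=
  ∏ v : {w : InfinitePlace K // w.IsComplex}, ((Real.sqrt 2 : ℝ) : ℂ) ^ (k v.1).natAbs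

lemma cc_ne (k : InfinitePlace K → ℤ) : cc k ≠ 0 := by
  unfold cc
  refine Finset.prod_ne_zero_iff.2 fun v _ => pow_ne_zero _ ?_
  exact_mod_cast (Real.sqrt_pos.2 (by norm_num : (0 : ℝ) < 2)).ne'

/-- real places -/
lemma real_term (a e : ℂ) (n : ℤ) (r E : ℝ) (hr : ((r : ℝ) : ℂ) = 0 → a = 0)
    (hn : n = 0 ∨ n = 1) (hE : e = ((E * r : ℝ) : ℂ)) :
    e ^ n.natAbs * (a / ((r : ℝ) : ℂ)) ^ n = (((E : ℝ) : ℂ) * a) ^ n.natAbs := by
  rcases hn with rfl | rfl
  · simp
  · rw [hE]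
    by_cases h : ((r : ℝ) : ℂ) = 0
    · rw [hr h]
      simp
    · simp only [Int.natAbs_one, pow_one, zpow_one]
      push_cast
      field_simp

/-- the inverse for real places -/
lemma real_term' (a e : ℂ) (n : ℤ) (r E : ℝ) (hr : ((r : ℝ) : ℂ) = 0 → a = 0)
    (hn : n = 0 ∨ n = 1) (hE : e = ((E * r : ℝ) : ℂ)) (ha : a * a = ((r ^ 2 : ℝ) : ℂ)) :
    e ^ n.natAbs * (a / ((r : ℝ) : ℂ)) ^ (-n) = (((E : ℝ) : ℂ) * a) ^ n.natAbs := by
  rcases hn with rfl | rfl
  · simp
  · rw [hE]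
    by_cases h : ((r : ℝ) : ℂ) = 0
    · rw [hr h]
      simp
    · have ha0 : a ≠ 0 := by
        intro h0
        rw [h0, mul_zero] at ha
        have h1 : r ^ 2 = 0 := by exact_mod_cast ha.symm
        exact h (by exact_mod_cast (pow_eq_zero_iff two_ne_zero).1 h1)
      simp only [Int.natAbs_one, pow_one, zpow_neg, zpow_one, inv_div]
      rw [mul_div_assoc', div_eq_iff ha0]
      push_cast at ha ⊢
      rw [mul_assoc ((E : ℝ) : ℂ) a a, ha]
      ring

/-- complex places, `n ≥ 0` -/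
lemma cpx_pos (a : ℂ) (n : ℤ) (r E : ℝ) (hr : ((r : ℝ) : ℂ) = 0 → a = 0) (hn : 0 ≤ n) :
    (((E * r : ℝ) : ℂ)) ^ n.natAbs * (a / ((r : ℝ) : ℂ)) ^ n =
      (((E : ℝ) : ℂ) * a) ^ n.natAbs := by
  obtain ⟨m, rfl⟩ := Int.eq_ofNat_of_zero_le hn
  rw [Int.natAbs_natCast, zpow_natCast, ← mul_pow]
  congr 1
  by_cases h : ((r : ℝ) : ℂ) = 0
  · rw [hr h]
    simp
  · push_cast
    field_simp

/-- complex places, `n ≤ 0` -/
lemma cpx_neg (a : ℂ) (n : ℤ) (r E : ℝ) (hr : ((r : ℝ) : ℂ) = 0 → a = 0)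
    (ha : (starRingEnd ℂ) a * a = ((r ^ 2 : ℝ) : ℂ)) (hn : n ≤ 0) :
    (((E * r : ℝ) : ℂ)) ^ n.natAbs * (a / ((r : ℝ) : ℂ)) ^ n =
      (((E : ℝ) : ℂ) * (starRingEnd ℂ) a) ^ n.natAbs := by
  obtain ⟨m, hm⟩ := Int.exists_eq_neg_ofNat hn
  subst hm
  rw [Int.natAbs_neg, Int.natAbs_natCast, zpow_neg, zpow_natCast, ← inv_pow, ← mul_pow]
  congr 1
  by_cases h : ((r : ℝ) : ℂ) = 0
  · rw [hr h]
    simp
  · have ha0 : a ≠ 0 := by
      intro h0
      rw [h0] at ha
      rw [mul_zero] at ha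
      have h1 : r ^ 2 = 0 := by exact_mod_cast ha.symm
      exact h (by exact_mod_cast (pow_eq_zero_iff two_ne_zero).1 h1)
    rw [inv_div, mul_div_assoc', div_eq_iff ha0]
    push_cast at ha ⊢
    rw [mul_assoc ((E : ℝ) : ℂ) _ a, ha]
    ring

omit [NumberField K] in
lemma emb_real (v : RP K) (x : K) : v.1.embedding x = ((re v x : ℝ) : ℂ) :=
  (embedding_of_isReal_apply v.2 x).symm

omit [NumberField K] in
lemma emb_zero (v : InfinitePlace K) (x : K) (h : ((v x : ℝ) : ℂ) = 0) : v.embedding x = 0 := by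
  have h1 : v x = 0 := by exact_mod_cast h
  rw [← norm_embedding_eq v x] at h1
  exact norm_eq_zero.1 h1

omit [NumberField K] in
lemma emb_sq (v : InfinitePlace K) (x : K) :
    (starRingEnd ℂ) (v.embedding x) * v.embedding x = (((v x) ^ 2 : ℝ) : ℂ) := by
  rw [← Complex.normSq_eq_conj_mul_self, Complex.normSq_eq_norm_sq, norm_embedding_eq]

open scoped Classical in
lemma hp_co (k : InfinitePlace K → ℤ) (hk : ∀ v : InfinitePlace K, v.IsReal → k v = 0 ∨ k v = 1)
    (y : InfinitePlace K → ℝ) (x : K) : hp k (co K 1 y x) = cc k * wk K k y x := by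
  unfold hp cc wk ag
  rw [← Finset.prod_mul_distrib, prod_eq_prod_mul_prod, mul_left_comm, ← Finset.prod_mul_distrib]
  congr 1
  · refine Finset.prod_congr rfl fun v _ => ?_
    rw [real_term (v.1.embedding x) _ (k v.1) (v.1 x) (Real.exp (y v.1 / 2))
      (emb_zero v.1 x) (hk v.1 v.2) rfl, emb_real]
    simp only [co]
    push_cast
    rfl
  · refine Finset.prod_congr rfl fun v _ => ?_
    simp only [co, if_true, one_ne_zero, if_false, one_mul]
    split_ifs with h
    · rw [cpx_pos _ _ _ _ (emb_zero v.1 x) h, ← mul_pow]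
      congr 1
      conv_rhs => rw [← Complex.re_add_im (v.1.embedding x)]
      push_cast
      ring
    · rw [cpx_neg _ _ _ _ (emb_zero v.1 x) (emb_sq v.1 x) (not_le.1 h).le, ← mul_pow]
      congr 1
      have h1 : (starRingEnd ℂ) (v.1.embedding x) =
          (((v.1.embedding x).re : ℝ) : ℂ) - (((v.1.embedding x).im : ℝ) : ℂ) * I := by
        apply Complex.ext <;> simp
      rw [h1]
      push_cast
      ring

open scoped Classical in
lemma hp_co' (k : InfinitePlace K → ℤ) (hk : ∀ v : InfinitePlace K, v.IsReal → k v = 0 ∨ k v = 1)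
    (y : InfinitePlace K → ℝ) (x : K) : hp k (co K (-1) y x) = cc k * wk K (-k) y x := by
  unfold hp cc wk ag
  rw [← Finset.prod_mul_distrib, prod_eq_prod_mul_prod, mul_left_comm, ← Finset.prod_mul_distrib]
  congr 1
  · refine Finset.prod_congr rfl fun v _ => ?_
    rw [Pi.neg_apply, Int.natAbs_neg,
      real_term' (v.1.embedding x) _ (k v.1) (v.1 x) (Real.exp (y v.1 / 2))
        (emb_zero v.1 x) (hk v.1 v.2) rfl ?_, emb_real]
    · simp only [co]
      push_cast
      rfl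
    · rw [emb_real, ← abs_re, sq_abs]
      push_cast
      ring
  · refine Finset.prod_congr rfl fun v _ => ?_
    simp only [co, if_true, one_ne_zero, if_false]
    rw [Pi.neg_apply]
    split_ifs with h
    · rw [cpx_neg _ _ _ _ (emb_zero v.1 x) (emb_sq v.1 x) (by linarith), Int.natAbs_neg,
        ← mul_pow]
      congr 1
      have h1 : (starRingEnd ℂ) (v.1.embedding x) =
          (((v.1.embedding x).re : ℝ) : ℂ) - (((v.1.embedding x).im : ℝ) : ℂ) * I := by
        apply Complex.ext <;> simp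
      rw [h1]
      push_cast
      ring
    · rw [cpx_pos _ _ _ _ (emb_zero v.1 x) (by linarith [not_le.1 h]), Int.natAbs_neg,
        ← mul_pow]
      congr 1
      conv_rhs => rw [← Complex.re_add_im (v.1.embedding x)]
      push_cast
      ring

end

open scoped Classical in
/-- the sum over a coset -/
lemma coset_sum (hPM : U_PM) (hGM : T_GMc) (hLB : T_LBc) (K : Type) [Field K] [NumberField K]
    (k : InfinitePlace K → ℤ) (hk : ∀ v : InfinitePlace K, v.IsReal → k v = 0 ∨ k v = 1)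
    (L : FI K) (hL : L ≠ 0) (y : InfinitePlace K → ℝ) (r : K) :
    Summable (fun l : {l : K // l ∈ L} => ‖GW k y (l + r)‖) ∧
    Summable (fun l : {l : K // l ∈ du K L} => ‖GW (-k) (-y) l‖) ∧
    ∑' l : {l : K // l ∈ L}, GW k y (l + r) =
      ((Real.exp (-(∑ v, (v.mult : ℝ) * y v) / 2) * (cv K L)⁻¹ : ℝ) : ℂ) * (-I) ^ dk K k *
        ∑' l : {l : K // l ∈ du K L},
          cexp (2 * Real.pi * I * ((Algebra.trace ℚ K (r * l) : ℚ) : ℂ)) * GW (-k) (-y) l := by
  obtain ⟨b, b', hbb, hb, hb', hd⟩ := hLB K L hL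
  obtain ⟨A, hA, hA1, hA2, hdet⟩ := hGM K b b' hbb y
  have hcv : 0 ≤ cv K L :=
    mul_nonneg (Real.sqrt_nonneg _) (by exact_mod_cast FractionalIdeal.absNorm_nonneg L)
  set q : mixedEmbedding.index K → ℚ := fun i => b.repr r i with hq
  have hr : ∑ i, q i • b i = r := b.sum_repr r
  obtain ⟨hs, ht, hP⟩ := hPM K k hk A hA (fun i => ((q i : ℚ) : ℝ))
  have hc0 : cc k ≠ 0 := cc_ne k
  have e1 : ∀ m : mixedEmbedding.index K → ℤ,
      A.mulVec (fun i => (m i : ℝ) + ((q i : ℚ) : ℝ)) = co K 1 y (∑ i, m i • b i + r) := by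
    intro m
    have h1 := hA1 (fun i => (m i : ℚ) + q i)
    have h2 : (fun i => (((m i : ℚ) + q i : ℚ) : ℝ)) = fun i => (m i : ℝ) + ((q i : ℚ) : ℝ) := by
      funext i
      push_cast
      ring
    rw [h2] at h1
    rw [h1]
    congr 1
    simp only [add_smul, Finset.sum_add_distrib, Int.cast_smul_eq_zsmul]
    rw [hr]
  have e2 : ∀ m : mixedEmbedding.index K → ℤ,
      (A⁻¹).transpose.mulVec (fun i => (m i : ℝ)) = co K (-1) (-y) (∑ i, m i • b' i) := by
    intro m
    have h1 := hA2 (fun i => (m i : ℚ))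
    have h2 : (fun i => (((m i : ℚ) : ℚ) : ℝ)) = fun i => (m i : ℝ) := by
      funext i
      push_cast
      rfl
    rw [h2] at h1
    rw [h1]
    congr 1
    simp only [Int.cast_smul_eq_zsmul]
  have e1' : ∀ m : mixedEmbedding.index K → ℤ,
      hp k (A.mulVec (fun i => (m i : ℝ) + ((q i : ℚ) : ℝ))) *
        ((Real.exp (-Real.pi * ∑ i, (A.mulVec (fun i => (m i : ℝ) + ((q i : ℚ) : ℝ)) i) ^ 2) :
          ℝ) : ℂ) = cc k * GW k y (∑ i, m i • b i + r) := by
    intro m
    rw [e1, hp_co k hk, co_sum 1 (by norm_num)]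
    unfold GW
    ring
  have e2' : ∀ m : mixedEmbedding.index K → ℤ,
      hp k ((A⁻¹).transpose.mulVec (fun i => (m i : ℝ))) *
        ((Real.exp (-Real.pi * ∑ i, ((A⁻¹).transpose.mulVec (fun i => (m i : ℝ)) i) ^ 2) :
          ℝ) : ℂ) = cc k * GW (-k) (-y) (∑ i, m i • b' i) := by
    intro m
    rw [e2, hp_co' k hk, co_sum (-1) (by norm_num)]
    unfold GW
    ring
  have e3 : ∀ m : mixedEmbedding.index K → ℤ,
      Algebra.trace ℚ K (r * ∑ i, m i • b' i) = ∑ i, (m i : ℚ) * q i := by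
    intro m
    rw [← hr, Finset.sum_mul, map_sum]
    refine Finset.sum_congr rfl fun i _ => ?_
    rw [Finset.mul_sum, map_sum, Finset.sum_eq_single i]
    · rw [← Int.cast_smul_eq_zsmul ℚ, smul_mul_smul_comm, map_smul, hbb, if_pos rfl]
      simp [mul_comm]
    · intro j _ hj
      rw [← Int.cast_smul_eq_zsmul ℚ, smul_mul_smul_comm, map_smul, hbb, if_neg (Ne.symm hj)]
      simp
    · intro h
      exact absurd (Finset.mem_univ i) h
  have e4 : |A.det|⁻¹ = Real.exp (-(∑ v, (v.mult : ℝ) * y v) / 2) * (cv K L)⁻¹ := by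
    rw [hdet, hd, Real.sqrt_sq hcv, mul_inv, ← Real.exp_neg, neg_div]
  refine ⟨?_, ?_, ?_⟩
  · rw [← (Pool.Agent.H3.HK.latEquiv L b hb).summable_iff]
    refine (hs.mul_left ‖cc k‖⁻¹).congr fun m => ?_
    have h1 := congrArg norm (e1' m)
    rw [norm_mul, norm_mul, Complex.norm_real, Real.norm_of_nonneg (Real.exp_pos _).le] at h1
    rw [Function.comp_apply, Pool.Agent.H3.HK.latEquiv_apply, h1, ← mul_assoc,
      inv_mul_cancel₀ (norm_ne_zero_iff.2 hc0), one_mul]
  · rw [← (Pool.Agent.H3.HK.latEquiv (du K L) b' hb').summable_iff]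
    refine (ht.mul_left ‖cc k‖⁻¹).congr fun m => ?_
    have h1 := congrArg norm (e2' m)
    rw [norm_mul, norm_mul, Complex.norm_real, Real.norm_of_nonneg (Real.exp_pos _).le] at h1
    rw [Function.comp_apply, Pool.Agent.H3.HK.latEquiv_apply, h1, ← mul_assoc,
      inv_mul_cancel₀ (norm_ne_zero_iff.2 hc0), one_mul]
  · rw [← (Pool.Agent.H3.HK.latEquiv L b hb).tsum_eq,
      ← (Pool.Agent.H3.HK.latEquiv (du K L) b' hb').tsum_eq, ← e4]
    refine mul_left_cancel₀ hc0 ?_
    have h1 : cc k * ∑' m : mixedEmbedding.index K → ℤ,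
        GW k y ((Pool.Agent.H3.HK.latEquiv L b hb m : {x : K // x ∈ L}) + r) =
        ∑' m : mixedEmbedding.index K → ℤ,
          hp k (A.mulVec (fun i => (m i : ℝ) + ((q i : ℚ) : ℝ))) *
            ((Real.exp (-Real.pi *
              ∑ i, (A.mulVec (fun i => (m i : ℝ) + ((q i : ℚ) : ℝ)) i) ^ 2) : ℝ) : ℂ) := by
      rw [← tsum_mul_left]
      refine tsum_congr fun m => ?_
      rw [Pool.Agent.H3.HK.latEquiv_apply, e1']
    have h2 : ∑' m : mixedEmbedding.index K → ℤ,
        cexp ((2 * Real.pi * (∑ i, (m i : ℝ) * ((q i : ℚ) : ℝ)) : ℝ) * I) *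
          (hp k ((A⁻¹).transpose.mulVec (fun i => (m i : ℝ))) * ((Real.exp (-Real.pi *
            ∑ i, ((A⁻¹).transpose.mulVec (fun i => (m i : ℝ)) i) ^ 2) : ℝ) : ℂ)) =
        cc k * ∑' m : mixedEmbedding.index K → ℤ,
          cexp (2 * Real.pi * I * ((Algebra.trace ℚ K (r *
            (Pool.Agent.H3.HK.latEquiv (du K L) b' hb' m : {x : K // x ∈ du K L})) : ℚ) : ℂ)) *
            GW (-k) (-y) (Pool.Agent.H3.HK.latEquiv (du K L) b' hb' m : {x : K // x ∈ du K L}) := by
      rw [← tsum_mul_left]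
      refine tsum_congr fun m => ?_
      rw [Pool.Agent.H3.HK.latEquiv_apply, e2', e3, mul_left_comm]
      congr 3
      push_cast
      ring
    rw [h1, hP, h2]
    ring

open scoped Classical in
/-- TK -/
theorem pf_TK (hPM : U_PM) (hGM : T_GMc) (hLB : T_LBc) : U_TK := by
  intro K _ _ k f M X c hk hf hM hX hc y
  set L : FI K := (f : FI K) * M with hLd
  have hL : L ≠ 0 := mul_ne_zero (FractionalIdeal.coeIdeal_ne_zero.2 hf) hM
  have hcos := coset_sum hPM hGM hLB K k hk L hL y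
  set D : ℂ := ((Real.exp (-(∑ v, (v.mult : ℝ) * y v) / 2) * (cv K L)⁻¹ : ℝ) : ℂ) *
    (-I) ^ dk K k with hD
  -- the left side
  have h1 : tk K k M c y = ∑ r ∈ X, c r * ∑' l : {l : K // l ∈ L}, GW k y (l + r) := by
    have h2 : tk K k M c y = ∑' p : {r : K // r ∈ X} × {l : K // l ∈ L},
        c p.1.1 * GW k y (p.2.1 + p.1.1) := by
      unfold tk
      rw [← (repEquiv hX).tsum_eq]
      refine tsum_congr fun p => ?_
      rw [repEquiv_apply]
      have h3 := hc p.1.1 (hX.1 _ p.1.2) p.2.1 p.2.2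
      rw [add_comm] at h3
      rw [h3]
      rfl
    have h3 : ∀ r : {r : K // r ∈ X}, Summable fun l : {l : K // l ∈ L} =>
        ‖c r.1 * GW k y (l.1 + r.1)‖ := by
      intro r
      have h4 := ((hcos r.1).1).mul_left ‖c r.1‖
      refine h4.congr fun l => ?_
      rw [norm_mul]
    have h5 : Summable fun p : {r : K // r ∈ X} × {l : K // l ∈ L} =>
        c p.1.1 * GW k y (p.2.1 + p.1.1) := by
      refine Summable.of_norm ?_
      refine (summable_prod_of_nonneg fun p => norm_nonneg _).2 ⟨h3, ?_⟩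
      exact Summable.of_finite
    rw [h2, h5.tsum_prod' fun r => (h3 r).of_norm, tsum_fintype,
      ← Finset.sum_coe_sort X (fun r => c r * ∑' l : {l : K // l ∈ L}, GW k y (l + r))]
    refine Finset.sum_congr rfl fun r _ => ?_
    show (∑' l : {l : K // l ∈ L}, c r.1 * GW k y (l.1 + r.1)) = _
    rw [tsum_mul_left]
  have hsum : ∀ r : K, Summable fun l : {l : K // l ∈ du K L} =>
      c r * (cexp (2 * Real.pi * I * ((Algebra.trace ℚ K (r * l) : ℚ) : ℂ)) *
        GW (-k) (-y) l) := by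
    intro r
    refine Summable.of_norm ?_
    refine (((hcos r).2.1).mul_left ‖c r‖).congr fun l => ?_
    rw [norm_mul, norm_mul]
    have h6 : ‖cexp (2 * Real.pi * I * ((Algebra.trace ℚ K (r * l) : ℚ) : ℂ))‖ = 1 := by
      have h7 : (2 * Real.pi * I * ((Algebra.trace ℚ K (r * l) : ℚ) : ℂ) : ℂ) =
          ((2 * Real.pi * ((Algebra.trace ℚ K (r * l) : ℚ) : ℝ) : ℝ) : ℂ) * I := by
        push_cast
        ring
      rw [h7, Complex.norm_exp_ofReal_mul_I]
    rw [h6, one_mul]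
  rw [h1]
  have h8 : ∀ r ∈ X, c r * ∑' l : {l : K // l ∈ L}, GW k y (l + r) =
      D * ∑' l : {l : K // l ∈ du K L},
        c r * (cexp (2 * Real.pi * I * ((Algebra.trace ℚ K (r * l) : ℚ) : ℂ)) *
          GW (-k) (-y) l) := by
    intro r _
    rw [(hcos r).2.2, tsum_mul_left]
    ring
  rw [Finset.sum_congr rfl h8, ← Finset.mul_sum]
  congr 1
  unfold tk
  rw [← Summable.tsum_finsetSum fun r _ => hsum r]
  refine tsum_congr fun l => ?_
  unfold ft
  rw [Finset.sum_mul]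
  refine Finset.sum_congr rfl fun r _ => ?_
  unfold GW
  ring

end Pool.Agent.H81.GLB
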